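import Pool.Agent.Helper89.Vol.Goals

/-!
# Project V36 (MP_cd13d2_co): packet D6
-/

namespace Pool.Agent.Helper85.Vol.PkD6

open Pool.Agent.Helper89.Vol Pool.Agent.Helper86.Poly

theorem thm : G_D6 := by
  intro x c i j
  unfold Dt W
  have h := Matrix.det_mul_row (![1, c, c, c, 1, 1] : Fin 6 → ℝ)
    (Matrix.of fun k : Fin 6 => ![1, x k 0, x k 1, x k 2, (Pi.single i 1 : Fin 6 → ℝ) k,
      (Pi.single j 1 : Fin 6 → ℝ) k])
  have h1 : ∏ l, (![1, c, c, c, 1, 1] : Fin 6 → ℝ) l = c ^ 3 := by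
    simp [Fin.prod_univ_succ]
    ring
  rw [h1] at h
  rw [← h]
  congr 1
  ext k l
  fin_cases l <;> simp

end Pool.Agent.Helper85.Vol.PkD6
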